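import Pool.Agent.W580.SH.StmB

/-! Project SH, subtask V2TET. -/

namespace Pool.Agent.W479.SH

open Finset Pool.Agent.W580.SH

/-- the determinant of `oneMat` for three rows and four points -/
lemma det4 {R : Type} (l j k : R) (p0 p1 p2 p3 : R → ℤ) :
    (oneMat ![l, j, k] ![p0, p1, p2, p3]).det =
      (Matrix.of ![![1, 1, 1, 1], ![p0 l, p1 l, p2 l, p3 l], ![p0 j, p1 j, p2 j, p3 j],
        ![p0 k, p1 k, p2 k, p3 k]] : Matrix (Fin 4) (Fin 4) ℤ).det := by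
  congr 1
  ext a b
  fin_cases a <;> fin_cases b <;> rfl

lemma det4' (a0 a1 a2 a3 b0 b1 b2 b3 c0 c1 c2 c3 : ℤ) :
    (Matrix.of ![![1, 1, 1, 1], ![a0, a1, a2, a3], ![b0, b1, b2, b3], ![c0, c1, c2, c3]] :
      Matrix (Fin 4) (Fin 4) ℤ).det =
      (a1 * (b2 * c3 - b3 * c2) - a2 * (b1 * c3 - b3 * c1) + a3 * (b1 * c2 - b2 * c1))
      - (a0 * (b2 * c3 - b3 * c2) - a2 * (b0 * c3 - b3 * c0) + a3 * (b0 * c2 - b2 * c0))
      + (a0 * (b1 * c3 - b3 * c1) - a1 * (b0 * c3 - b3 * c0) + a3 * (b0 * c1 - b1 * c0))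
      - (a0 * (b1 * c2 - b2 * c1) - a1 * (b0 * c2 - b2 * c0) + a2 * (b0 * c1 - b1 * c0)) := by
  simp [Matrix.det_succ_row_zero, Fin.sum_univ_succ, Fin.succAbove]
  ring

lemma key4 {R : Type} {I : Finset R} {A : Finset (R → ℤ)} {O : R → ℝ} {θ : ℝ}
    (h : HypB I A O θ) (l j k : R) {p0 p1 p2 p3 : R → ℤ} (h0 : p0 ∈ A) (h1 : p1 ∈ A)
    (h2 : p2 ∈ A) (h3 : p3 ∈ A) :
    |(Matrix.of ![![1, 1, 1, 1], ![p0 l, p1 l, p2 l, p3 l], ![p0 j, p1 j, p2 j, p3 j],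
        ![p0 k, p1 k, p2 k, p3 k]] : Matrix (Fin 4) (Fin 4) ℤ).det| ≤ 1 := by
  have := (h.key 3 ![l, j, k] ![p0, p1, p2, p3] (by
    intro b
    fin_cases b
    · exact h0
    · exact h1
    · exact h2
    · exact h3)).1
  rwa [det4] at this

/-- no full set of alternate vertices of a 3-cube -/
theorem tet : S_TET := by
  intro R _ _ I A O θ h l j k x hx y hy z hz w hw
  rintro ⟨x1, x2, x3, y1, y2, y3, z1, z2, z3, w1, w2, w3⟩
  have := key4 h l j k hx hy hz hw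
  rw [det4', x1, x2, x3, y1, y2, y3, z1, z2, z3, w1, w2, w3] at this
  norm_num at this

/-- the fourth corner of a prism is empty -/
theorem v2 : S_V2 := by
  intro R _ _ I A O θ h l j k u v hp y hy
  rintro ⟨yj, yk⟩
  obtain ⟨hp, a1, a2, a3, a4, a5, a6⟩ := hp
  obtain ⟨hu0, hv0, ul0, vl0, vj0, vk0⟩ := hp 0
  obtain ⟨hu1, hv1, ul1, vl1, vj1, vk1⟩ := hp 1
  obtain ⟨hu2, hv2, ul2, vl2, vj2, vk2⟩ := hp 2
  rcases h.bin y hy l with yl | yl
  · have := key4 h l j k hv0 hy hu2 hu1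
    rw [det4', vj0, vk0, vl0, yj, yk, yl, ul2, ul1, a1, a2, a3, a4, a5, a6] at this
    norm_num at this
  · have := key4 h l j k hy hu0 hv1 hv2
    rw [det4', yj, yk, yl, vj1, vk1, vl1, vj2, vk2, vl2, ul0, a1, a2, a3, a4, a5, a6] at this
    norm_num at this

end Pool.Agent.W479.SH
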